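import Pool.Agent.H13.TQ.Final

/-!
# The converse limit theorem for iterated tree-free convolution fails

All definitions used in the statement are in this file.
-/

open MeasureTheory Filter Topology

namespace Pool.Agent.Results.MP_50dbd7_an.ConverseLimitFails

/-- The Cauchy transform `G_μ(z) = ∫ (z - t)⁻¹ dμ(t)`. -/
noncomputable def G (μ : ProbabilityMeasure ℝ) (z : ℂ) : ℂ :=
  ∫ t : ℝ, (z - (t : ℂ))⁻¹ ∂(μ : Measure ℝ)

/-- `F_μ = 1 / G_μ`. -/
noncomputable def F (μ : ProbabilityMeasure ℝ) (z : ℂ) : ℂ := (G μ z)⁻¹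

/-- `K_μ(z) = z - F_μ(z)`. -/
noncomputable def K (μ : ProbabilityMeasure ℝ) (z : ℂ) : ℂ := z - F μ z

/-- `ν = μ^{⊎ c}`: the unique probability measure with `K_ν = c K_μ` on the upper half plane. -/
def IsBoolPow (μ : ProbabilityMeasure ℝ) (c : ℝ) (ν : ProbabilityMeasure ℝ) : Prop :=
  (∀ z : ℂ, 0 < z.im → K ν z = (c : ℂ) * K μ z) ∧
    ∀ ν' : ProbabilityMeasure ℝ, (∀ z : ℂ, 0 < z.im → K ν' z = (c : ℂ) * K μ z) → ν' = ν

/-- `T ∈ Tree(N)`: a string over `[N]` is a list, adding a letter on the left is `List.cons`;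
`T` consists of alternating strings, contains the root `[]`, and contains with a string also the
string obtained by deleting the leftmost letter. -/
def IsTree {N : ℕ} (T : Set (List (Fin N))) : Prop :=
  [] ∈ T ∧ (∀ s ∈ T, s.IsChain (fun a b => a ≠ b)) ∧
    ∀ (j : Fin N) (s : List (Fin N)), j :: s ∈ T → s ∈ T

/-- `n(T)`, the number of neighbours of the root. -/
noncomputable def numNbr {N : ℕ} (T : Set (List (Fin N))) : ℕ := {j : Fin N | [j] ∈ T}.ncard

/-- The branch `br_j(T) = {s : s j ∈ T}`. -/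
def br {N : ℕ} (j : Fin N) (T : Set (List (Fin N))) : Set (List (Fin N)) := {s | s ++ [j] ∈ T}

open Classical in
/-- The recursion on the depth of the tree which defines the convolution `ν = ⊞_T(μ)` for finite
trees `T`: there are measures `β j = ⊞_{br_j(T)}(μ)` for the neighbours `j` of the root, obtained
by the same recursion, with `K_ν(z) = ∑_j K_μ(z - K_{β j}(z))` on the upper half plane. (For
`T = {[]}` this says `K_ν = 0`, that is `ν = δ_0`.) -/
inductive TreeRec {N : ℕ} (μ : ProbabilityMeasure ℝ) :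
    Set (List (Fin N)) → ProbabilityMeasure ℝ → Prop
  | mk (T : Set (List (Fin N))) (ν : ProbabilityMeasure ℝ) (β : Fin N → ProbabilityMeasure ℝ)
      (hβ : ∀ j, [j] ∈ T → TreeRec μ (br j T) (β j))
      (hν : ∀ z : ℂ, 0 < z.im →
        K ν z = ∑ j ∈ Finset.univ.filter (fun j : Fin N => [j] ∈ T), K μ (z - K (β j) z)) :
      TreeRec μ T ν

/-- `ν = ⊞_T(μ)` (for a finite tree `T`): the unique measure given by the recursion. -/
def IsTreeConv {N : ℕ} (T : Set (List (Fin N))) (μ ν : ProbabilityMeasure ℝ) : Prop :=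
  TreeRec μ T ν ∧ ∀ ν' : ProbabilityMeasure ℝ, TreeRec μ T ν' → ν' = ν

/-- `ν = ⊞_{T^{∘ k}}(μ)`: the `k`-th iterate of `μ ↦ ⊞_T(μ)`. -/
def IsTreeIter {N : ℕ} (T : Set (List (Fin N))) (k : ℕ) (μ ν : ProbabilityMeasure ℝ) : Prop :=
  ∃ c : ℕ → ProbabilityMeasure ℝ, c 0 = μ ∧ c k = ν ∧ ∀ i < k, IsTreeConv T (c i) (c (i + 1))

theorem treeRec_of {N : ℕ} {μ : ProbabilityMeasure ℝ} {T : Set (List (Fin N))}
    {ν : ProbabilityMeasure ℝ} (h : Pool.Agent.H13.TQ.IsTreeConv μ T ν) : TreeRec μ T ν := by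
  induction h with
  | mk T ν β _ hν ih => exact TreeRec.mk T ν β ih hν

theorem of_treeRec {N : ℕ} {μ : ProbabilityMeasure ℝ} {T : Set (List (Fin N))}
    {ν : ProbabilityMeasure ℝ} (h : TreeRec μ T ν) : Pool.Agent.H13.TQ.IsTreeConv μ T ν := by
  induction h with
  | mk T ν β _ hν ih => exact Pool.Agent.H13.TQ.IsTreeConv.mk T ν β ih hν

/-- **Disproof of Q1.** There are a finite tree `T` with `n(T) > 1`, natural numbers `k_l → ∞` and
probability measures `μ_l` on the line such that `⊞_{T^{∘ k_l}}(μ_l)` converges weakly to a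
probability measure, but the boolean powers `μ_l^{⊎ n(T)^{k_l}}` do not. -/
theorem result :
    ∃ (N : ℕ) (T : Set (List (Fin N))), IsTree T ∧ T.Finite ∧ 1 < numNbr T ∧
    ∃ (k : ℕ → ℕ) (μ ν β : ℕ → ProbabilityMeasure ℝ),
      Tendsto k atTop atTop ∧
      (∀ l, IsTreeIter T (k l) (μ l) (ν l)) ∧
      (∀ l, IsBoolPow (μ l) ((numNbr T : ℝ) ^ k l) (β l)) ∧
      (∃ lam : ProbabilityMeasure ℝ, Tendsto ν atTop (𝓝 lam)) ∧
      ¬ ∃ lam : ProbabilityMeasure ℝ, Tendsto β atTop (𝓝 lam) := by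
  obtain ⟨N, T, hT, hfin, hn, k, μ, conv, b, hk, h0, hconv, hb, ⟨lam, hlam⟩, hnot⟩ :=
    Pool.Agent.H13.TQ.final
  refine ⟨N, T, hT, hfin, hn, k, μ, fun l => conv l (k l), b, hk, ?_, ?_, ?_, hnot⟩
  · intro l
    refine ⟨conv l, h0 l, rfl, ?_⟩
    intro i hi
    refine ⟨treeRec_of (hconv l i hi), ?_⟩
    intro ν' hν'
    exact Pool.Agent.H13.TQ.IsTreeConv_unique (hconv l i hi) ν' (of_treeRec hν')
  · intro l
    have hK : ∀ z : ℂ, 0 < z.im →
        K (b l) z = (((numNbr T : ℝ) ^ k l : ℝ) : ℂ) * K (μ l) z := by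
      intro z hz
      have := hb l z hz
      push_cast
      exact this
    refine ⟨hK, ?_⟩
    intro ν' hν'
    refine Pool.Agent.H13.TQ.K_inj _ _ ?_
    intro z hz
    exact (hν' z hz).trans (hK z hz).symm
  · refine ⟨lam, ?_⟩
    have : (fun l => conv l (k l)) = fun _ => lam := funext hlam
    rw [this]
    exact tendsto_const_nhds

end Pool.Agent.Results.MP_50dbd7_an.ConverseLimitFails
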